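import Mathlib
import Pool.Agent.Y668.MQ.Base

/-!
# Moments of the ranks of the curves `y² = x³ + a x` over multiquadratic fields

`D₀`, `D₁`, ..., `D_s` are nonzero polynomials with integer coefficients and `F_t` is the field
`ℚ(√D₁(t), ..., √D_s(t))`. If no irreducible factor of the products of `D₀` and the squares of some
of the `D_i` has multiplicity `2 mod 4`, then all the moments of `2 ^ rank` are bounded over the
curves `y² = x³ + D₀(t) x` over `F_t` (`result`). For constant `D₁`, ..., `D_s` the field is a fixed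
multiquadratic field and the condition is on `D₀` only (`fixed_field`); for `D₀ = t` one gets all
the curves `y² = x³ + a x` with an integer `a` (`all_curves`). The `D_i` may also be odd powers of
factors of `D₀` (the fields `ℚ(√a)` for `y² = x³ + a x`).
-/

set_option autoImplicit false

namespace Pool.Agent.Results.MP_81dc49_nt.QuarticTwistsMultiquadratic

open Finset Polynomial

/-- the curve `y² = x³ + a x` over `F` -/
def E (a : ℤ) (F : Type) [Field F] : WeierstrassCurve F := ⟨0, 0, 0, (a : F), 0⟩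

/-- the Mordell-Weil rank of the curve `W` -/
noncomputable def rk {F : Type} [Field F] (W : WeierstrassCurve F) : ℕ := by
  classical
  exact Module.finrank ℤ W.toAffine.Point

/-- the number field `F` is generated by square roots of the integers `d i` -/
def Gen (F : Type) [Field F] [NumberField F] {s : ℕ} (d : Fin s → ℤ) : Prop :=
  ∃ x : Fin s → F, (∀ i, x i ^ 2 = (d i : F)) ∧
    IntermediateField.adjoin ℚ (Set.range x) = ⊤

/-- the integers `t` with `N < t ≤ N + M` that are not zeros of the polynomials -/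
noncomputable def Par {s : ℕ} (D₀ : ℤ[X]) (D : Fin s → ℤ[X]) (N : ℤ) (M : ℕ) : Finset ℤ := by
  classical
  exact (Ioc N (N + M)).filter (fun t => D₀.eval t ≠ 0 ∧ ∀ i, (D i).eval t ≠ 0)

/-- **Theorem.** Let `D₀`, `D₁`, ..., `D_s` be nonzero polynomials with integer coefficients such
that the multiplicities of the irreducible polynomials in the products of `D₀` and the squares of
some of the `D₁`, ..., `D_s` are not `2 mod 4`. Let `F t = ℚ(√D₁(t), ..., √D_s(t))`. Then for all
`k` and `L` there is `C` such that for all integers `M ≥ 1` and `|N| ≤ M ^ L` and the `t` with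
`N < t ≤ N + M`, not a zero of the polynomials: the sum of `2 ^ (k r_t)` is at most `C M` and at
most `C M / 2 ^ (k n)` of the `t` have `r_t ≥ n`, where `r_t` is the rank of `y² = x³ + D₀(t) x` over
`F t`. -/
theorem result (s : ℕ) (D₀ : ℤ[X]) (hD₀ : D₀ ≠ 0) (D : Fin s → ℤ[X]) (hD : ∀ i, D i ≠ 0)
    (h : ∀ T : Finset (Fin s), ∀ f : ℚ[X], Irreducible f →
      multiplicity f ((D₀ * (∏ i ∈ T, D i) ^ 2).map (Int.castRingHom ℚ)) % 4 ≠ 2) (k L : ℕ) :
    ∃ c : ℝ, ∀ (N : ℤ) (M : ℕ), 1 ≤ M → |N| ≤ (M : ℤ) ^ L →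
      ∀ (F : ℤ → Type) [∀ t, Field (F t)] [∀ t, NumberField (F t)],
      (∀ t ∈ Par D₀ D N M, Gen (F t) (fun i => (D i).eval t)) →
      ∑ t ∈ Par D₀ D N M, ((2 : ℝ) ^ rk (E (D₀.eval t) (F t))) ^ k ≤ c * M ∧
      ∀ n : ℕ, (((Par D₀ D N M).filter (fun t => n ≤ rk (E (D₀.eval t) (F t)))).card : ℝ) ≤
          c * M / 2 ^ (k * n) := by
  classical
  obtain ⟨c, hc⟩ := Pool.Agent.Y668.MQ.mq_sum s (fun i t => (D i).eval t)
    (fun t => D₀.eval t) (fun _ => 0) (fun _ => 0)
    (fun t => D₀.eval t ≠ 0 ∧ ∀ i, (D i).eval t ≠ 0) (fun t ht => ht.2)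
    (fun t _ => by simp)
    (fun t ht h5 => by
      have h6 : (D₀.eval t) ^ 3 = 0 := by linarith
      exact ht.1 (pow_eq_zero_iff (by norm_num) |>.1 h6)) k L
    (fun T => by
      obtain ⟨c, hc⟩ := Pool.Agent.Y668.quart_moments (D₀ * (∏ i ∈ T, D i) ^ 2)
        (mul_ne_zero hD₀ (pow_ne_zero 2 (prod_ne_zero_iff.2 fun i _ => hD i))) (h T) (2 ^ s * k) L
      refine ⟨c, fun N M hM hN => le_trans ?_ (hc N M hM hN)⟩
      refine le_trans (le_of_eq ?_) (sum_le_sum_of_subset_of_nonneg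
        (s := (Ioc N (N + M)).filter (fun t => D₀.eval t ≠ 0 ∧ ∀ i, (D i).eval t ≠ 0)) ?_
        (fun t _ _ => by positivity))
      · refine sum_congr (by ext t; simp) fun t ht => ?_
        congr 2
        have h7 : ((D₀ * (∏ i ∈ T, D i) ^ 2).eval t) =
            D₀.eval t * (∏ i ∈ T, (D i).eval t) ^ 2 := by
          rw [eval_mul, eval_pow, eval_prod]
        rw [h7]
        have h8 : Pool.Agent.W307.RT.Sh ((∏ i ∈ T, (D i).eval t) ^ 2 * D₀.eval t)
            ((∏ i ∈ T, (D i).eval t) ^ 3 * 0) =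
            Pool.Agent.Y668.W2 0 (D₀.eval t * (∏ i ∈ T, (D i).eval t) ^ 2) := by
          unfold Pool.Agent.W307.RT.Sh Pool.Agent.Y668.W2
          rw [mul_zero, Int.cast_zero, mul_comm (D₀.eval t)]
        rw [h8]
      · intro t ht
        rw [mem_filter] at ht ⊢
        refine ⟨ht.1, ?_⟩
        rw [eval_mul, eval_pow, eval_prod]
        exact mul_ne_zero ht.2.1 (pow_ne_zero 2 (prod_ne_zero_iff.2 fun i _ => ht.2.2 i)))
  refine ⟨c, fun N M hM hN F _ _ hF => ?_⟩
  have hPar : Par D₀ D N M =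
      (Ioc N (N + M)).filter (fun t => D₀.eval t ≠ 0 ∧ ∀ i, (D i).eval t ≠ 0) := by
    unfold Par
    congr
  have h1 := hc N M hM hN F (fun t ht => hF t (by rw [hPar]; convert ht))
  have h2 : ∑ t ∈ Par D₀ D N M,
      ((2 : ℝ) ^ rk (E (D₀.eval t) (F t))) ^ k ≤ c * M := by
    rw [hPar]
    refine le_trans (le_of_eq ?_) h1
    refine sum_congr (by ext t; simp) fun t ht => ?_
    have h3 : E (D₀.eval t) (F t) =
        Pool.Agent.W307.RS.ShK ((D₀.eval t : ℤ) : F t) (((0 : ℤ)) : F t) := by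
      unfold E Pool.Agent.W307.RS.ShK
      rw [Int.cast_zero]
    rw [h3]
    rfl
  refine ⟨h2, fun n => ?_⟩
  rw [le_div_iff₀ (by positivity)]
  refine le_trans ?_ h2
  rw [← nsmul_eq_mul, ← sum_const]
  refine (sum_le_sum (fun t ht => ?_)).trans (sum_le_sum_of_subset_of_nonneg (filter_subset _ _)
      (fun t _ _ => by positivity))
  rw [mem_filter] at ht
  rw [mul_comm k n, pow_mul]
  exact pow_le_pow_left₀ (by positivity) (pow_le_pow_right₀ (by norm_num) ht.2) k

lemma mult_const (c : ℤ) (hc : c ≠ 0) (f : ℚ[X]) (D : ℤ[X]) :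
    multiplicity f ((D * C c).map (Int.castRingHom ℚ)) =
      multiplicity f (D.map (Int.castRingHom ℚ)) := by
  have h : Associated ((D * C c).map (Int.castRingHom ℚ)) (D.map (Int.castRingHom ℚ)) := by
    have hu : IsUnit (C ((c : ℤ) : ℚ)) :=
      Polynomial.isUnit_C.2 (isUnit_iff_ne_zero.2 (by exact_mod_cast hc))
    obtain ⟨u, hu⟩ := hu
    refine (Associated.symm ⟨u, ?_⟩)
    rw [hu, Polynomial.map_mul, Polynomial.map_C]
    rfl
  exact multiplicity_eq_of_associated_right h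

/-- The case of a fixed multiquadratic field `F`: the condition is on `D` only. -/
theorem fixed_field (F : Type) [Field F] [NumberField F] (s : ℕ) (d : Fin s → ℤ)
    (hd : ∀ i, d i ≠ 0) (hF : Gen F d) (D : ℤ[X]) (hD : D ≠ 0)
    (h : ∀ f : ℚ[X], Irreducible f → multiplicity f (D.map (Int.castRingHom ℚ)) % 4 ≠ 2)
    (k L : ℕ) :
    ∃ c : ℝ, ∀ (N : ℤ) (M : ℕ), 1 ≤ M → |N| ≤ (M : ℤ) ^ L →
      ∑ t ∈ (Ioc N (N + M)).filter (fun t => D.eval t ≠ 0),
        ((2 : ℝ) ^ rk (E (D.eval t) F)) ^ k ≤ c * M := by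
  classical
  obtain ⟨c, hc⟩ := result s D hD (fun i => C (d i)) (fun i => C_ne_zero.2 (hd i))
    (fun T f hf => by
      have h1 : (∏ i ∈ T, C (d i)) ^ 2 = (C ((∏ i ∈ T, d i) ^ 2) : ℤ[X]) := by
        rw [map_pow, map_prod]
      rw [h1, mult_const _ (pow_ne_zero 2 (prod_ne_zero_iff.2 fun i _ => hd i))]
      exact h f hf) k L
  refine ⟨c, fun N M hM hN => ?_⟩
  have h1 := (hc N M hM hN (fun _ => F) (fun t _ => by simpa using hF)).1
  have hPar : Par D (fun i => C (d i)) N M =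
      (Ioc N (N + M)).filter (fun t => D.eval t ≠ 0) := by
    unfold Par
    ext t
    simp [hd]
  rw [hPar] at h1
  exact h1

/-- All the curves `y² = x³ + a x`, `a` an integer, over a fixed multiquadratic field. -/
theorem all_curves (F : Type) [Field F] [NumberField F] (s : ℕ) (d : Fin s → ℤ)
    (hd : ∀ i, d i ≠ 0) (hF : Gen F d) (k L : ℕ) :
    ∃ c : ℝ, ∀ (N : ℤ) (M : ℕ), 1 ≤ M → |N| ≤ (M : ℤ) ^ L →
      ∑ t ∈ (Ioc N (N + M)).filter (fun t => t ≠ 0),
        ((2 : ℝ) ^ rk (E t F)) ^ k ≤ c * M := by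
  obtain ⟨c, hc⟩ := fixed_field F s d hd hF X X_ne_zero (by
    intro f hf h2
    rw [Polynomial.map_X] at h2
    have h3 : f ^ 2 ∣ (X : ℚ[X]) := (pow_dvd_pow f (by omega)).trans (pow_multiplicity_dvd f X)
    exact hf.not_isUnit (irreducible_X.squarefree f (by rwa [← sq]))) k L
  simp only [eval_X] at hc
  exact ⟨c, hc⟩

end Pool.Agent.Results.MP_81dc49_nt.QuarticTwistsMultiquadratic
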