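import Mathlib
import Pool.Agent.Y696.XL.Rank

/-!
# The ranks of the cubic twists over `ℚ(√-3)`

`K` is the field of third roots of unity, `E_D : y² + D y = x³`, and `D` runs through the squarefree
`D = 1` modulo `3` of `𝓞 K` whose norm is not `1` modulo `9`; there are at least `c X` such `D` of
norm at most `X`.

* The average of `3 ^ (rank / 2)` is at most `2 + ε`, and the average rank is at most `0.809`, for
  large `X`.
* For every `r` the proportion of the `D` with rank at most `2 r` is at least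
  `p_0 + ⋯ + p_r - ε` for large `X`, where
  `p_s = ∏_{i ≥ 0} (1 - 3^{-(2 i + 1)}) / ((3 - 1) (9 - 1) ⋯ (3 ^ s - 1))`; `p_0 > 0.639`, and
  `1 - (p_0 + ⋯ + p_r) ≤ 1.5 / 3 ^ ((r + 1) (r + 2) / 2)`.

These are consequences of the law of the Selmer groups of `√-3` (projects XK and XL, see
`MP_8cb858_nt.CubicTwistsSelmerLaw`), joint work of helper31, helper275, helper968, helper994,
helper170, helper697, helper363, helper710, helper804, helper528, helper85, helper688, helper474,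
helper433, helper550, helper699, helper145, helper350, helper703 and helper696 and of the seats named
in the headers of `Pool/Agent/Y703/CT` and of the files imported by `Pool/Agent/Y696/CTK/Fin.lean`.
-/

set_option autoImplicit false

namespace Pool.Agent.Results.MP_81dc49_nt.RankLawCubicTwists

open NumberField
open scoped Classical

/-- The rank of `E_D(K)` over `ℤ`, where `E_D : y² + D y = x³`. -/
noncomputable def rank {K : Type} [Field K] (D : K) : ℕ :=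
  Module.finrank ℤ (⟨0, 0, D, 0, 0⟩ : WeierstrassCurve K).toAffine.Point

/-- The squarefree `D` that are `1` modulo `3` and whose norm is at most `X` and not `1`
modulo `9`. -/
def upTo (K : Type) [Field K] [NumberField K] (X : ℕ) : Set (𝓞 K) :=
  {D : 𝓞 K | Algebra.norm ℤ D ≤ X ∧
    ((3 : 𝓞 K) ∣ D - 1 ∧ Squarefree D ∧ ¬ (9 : ℤ) ∣ Algebra.norm ℤ D - 1)}

/-- The elements `D` of `upTo K X` such that the rank of `E_D(K)` is at most `n`. -/
def rankLe (K : Type) [Field K] [NumberField K] (X n : ℕ) : Set (𝓞 K) :=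
  {D : 𝓞 K | Algebra.norm ℤ D ≤ X ∧
    ((3 : 𝓞 K) ∣ D - 1 ∧ Squarefree D ∧ ¬ (9 : ℤ) ∣ Algebra.norm ℤ D - 1) ∧ rank (D : K) ≤ n}

/-- `p_r = ∏_{i ≥ 0} (1 - 3^{-(2 i + 1)}) / ((3 - 1) (9 - 1) ⋯ (3 ^ r - 1))`. -/
noncomputable def p (r : ℕ) : ℝ :=
  (∏' i : ℕ, (1 - (1 / 3 : ℝ) ^ (2 * i + 1))) / ∏ i ∈ Finset.range r, ((3 : ℝ) ^ (i + 1) - 1)

theorem result (K : Type) [Field K] [NumberField K] [IsCyclotomicExtension {3} ℚ K] :
    (∃ c : ℝ, 0 < c ∧ ∃ X₀ : ℕ, ∀ X : ℕ, X₀ ≤ X → c * X ≤ ((upTo K X).ncard : ℝ)) ∧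
    (∀ ε : ℝ, 0 < ε → ∃ X₀ : ℕ, ∀ X : ℕ, X₀ ≤ X →
      ∑ᶠ D ∈ upTo K X, (√3) ^ rank (D : K) ≤ (2 + ε) * ((upTo K X).ncard : ℝ)) ∧
    (∃ X₀ : ℕ, ∀ X : ℕ, X₀ ≤ X →
      ∑ᶠ D ∈ upTo K X, (rank (D : K) : ℝ) ≤ 0.809 * ((upTo K X).ncard : ℝ)) ∧
    (∀ (r : ℕ) (ε : ℝ), 0 < ε → ∃ X₀ : ℕ, ∀ X : ℕ, X₀ ≤ X →
      (∑ s ∈ Finset.range (r + 1), p s - ε) * ((upTo K X).ncard : ℝ) ≤
        ((rankLe K X (2 * r)).ncard : ℝ)) ∧
    (0.639 < p 0 ∧ p 0 < 0.6391 ∧ HasSum p 1) ∧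
    ∀ r : ℕ, 1 - 1.5 / 3 ^ ((r + 1) * (r + 2) / 2) ≤ ∑ s ∈ Finset.range (r + 1), p s :=
  Pool.Agent.XL6.finalRk K

end Pool.Agent.Results.MP_81dc49_nt.RankLawCubicTwists
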